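import Pool.Agent.helper35.Cant.MU
import Pool.Agent.helper23.Cant.SL
import Pool.Agent.helper44.Cant.GEO

set_option autoImplicit false

/-!
# Module EX: the exchange (MP_3c0a64_an)
-/

namespace Pool.Agent.helper32.Cant

open Finset

/-- the known part of the shift -/
def shf {n : ℕ} (c : Cfg n) (A j : ℕ) (z : Sp2 n) : ℤ :=
  ((3 ^ (n - j - A) * bR c (j + A) z.1 : ℕ) - (3 ^ (n - j) * bR c j z.1 : ℕ) : ℤ)
    * (E z.2 - E z.1.1.2)

namespace EX57

variable {n : ℕ}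

/-- the exchange map -/
def psi (c : Cfg n) (j : ℕ) (z : Sp2 n) : Sp2 n :=
  (((z.1.1.1, z.2), z.1.2 - (((3 ^ (n - j) * bR c j z.1 : ℕ) : ℤ) * (E z.2 - E z.1.1.2) : ℤ)),
    z.1.1.2)

theorem bR_psi (c : Cfg n) (j j' : ℕ) (z : Sp2 n) : bR c j' (psi c j z).1 = bR c j' z.1 := rfl

theorem psi_psi (c : Cfg n) (j : ℕ) (z : Sp2 n) : psi c j (psi c j z) = z := by
  obtain ⟨⟨⟨xi, w⟩, τ⟩, w'⟩ := z
  simp only [psi, bR, Prod.mk.injEq, true_and, and_true]
  push_cast
  ring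

theorem agree_symm {i : ℕ} {w w' : Word n} (h : agree i w w') : agree i w' w :=
  fun l hl => (h l hl).symm

theorem agree_trans_iff {i : ℕ} {w w' : Word n} (h : agree i w w') (w'' : Word n) :
    agree i w w'' ↔ agree i w' w'' := by
  constructor
  · intro h1 l hl
    rw [h1 l hl, h l hl]
  · intro h1 l hl
    rw [h1 l hl, h l hl]

theorem cnt_eq (c : Cfg n) {i : ℕ} (xi : Fin (3 ^ n)) {w w' : Word n} (h : agree i w w') :
    cnt c i (xi, w) = cnt c i (xi, w') := by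
  unfold cnt
  refine Finset.sum_congr rfl fun w'' _ => ind_congr ?_
  rw [agree_trans_iff h w'']

theorem mu2_psi (c : Cfg n) (i j : ℕ) (z : Sp2 n) : mu2 c i (psi c j z) = mu2 c i z := by
  obtain ⟨⟨⟨xi, w⟩, τ⟩, w'⟩ := z
  simp only [mu2, psi, mu]
  by_cases h1 : (xi, w) ∈ c.G <;> by_cases h2 : (xi, w') ∈ c.G <;> by_cases h3 : agree i w w'
  · rw [cnt_eq c xi h3, ind_of ⟨h1, agree_symm h3⟩, ind_of ⟨h2, h3⟩]
    simp [h1, h2]
  · rw [ind_of_not (fun h => h3 (agree_symm h.2)), ind_of_not (fun h => h3 h.2)]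
    simp
  all_goals simp [h1, h2, ind]

/-- the full shift -/
def dsh (c : Cfg n) (j : ℕ) (z : Sp2 n) : ℤ :=
  ((c.R z.1.1.1 : ℤ) - ((3 ^ (n - j) * bR c j z.1 : ℕ) : ℤ)) * (E z.2 - E z.1.1.2)

/-- the error -/
def esh (c : Cfg n) (A j : ℕ) (z : Sp2 n) : ℤ :=
  ((c.R z.1.1.1 : ℤ) - ((3 ^ (n - j - A) * bR c (j + A) z.1 : ℕ) : ℤ)) * (E z.2 - E z.1.1.2)

theorem u_psi (c : Cfg n) (j : ℕ) (z : Sp2 n) :
    uu c (psi c j z).1 = uu c z.1 + ((dsh c j z : ℤ) : ZMod (3 ^ (2 * n))) := by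
  obtain ⟨⟨⟨xi, w⟩, τ⟩, w'⟩ := z
  simp only [uu, psi, yi, dsh]
  push_cast
  ring

theorem dsh_eq (c : Cfg n) (A j : ℕ) (z : Sp2 n) : dsh c j z = shf c A j z + esh c A j z := by
  simp only [dsh, shf, esh]
  ring

theorem rem_nonneg (c : Cfg n) (j : ℕ) (z : Sp2 n) :
    0 ≤ (c.R z.1.1.1 : ℤ) - ((3 ^ (n - j) * bR c j z.1 : ℕ) : ℤ) := by
  have : 3 ^ (n - j) * bR c j z.1 ≤ c.R z.1.1.1 := by
    unfold bR
    exact Nat.mul_div_le _ _
  have h2 : ((3 ^ (n - j) * bR c j z.1 : ℕ) : ℤ) ≤ (c.R z.1.1.1 : ℤ) := by exact_mod_cast this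
  linarith

theorem rem_lt (c : Cfg n) (j : ℕ) (z : Sp2 n) :
    (c.R z.1.1.1 : ℤ) - ((3 ^ (n - j) * bR c j z.1 : ℕ) : ℤ) ≤ 3 ^ (n - j) := by
  have h0 : c.R z.1.1.1 < 3 ^ (n - j) * bR c j z.1 + 3 ^ (n - j) := by
    unfold bR
    have := Nat.lt_mul_div_succ (c.R z.1.1.1) (show 0 < 3 ^ (n - j) by positivity)
    rw [mul_add, mul_one] at this
    exact this
  have h2 : (c.R z.1.1.1 : ℤ) < ((3 ^ (n - j) * bR c j z.1 : ℕ) : ℤ) + 3 ^ (n - j) := by
    exact_mod_cast h0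
  linarith

theorem abs_dsh_le (c : Cfg n) {i j : ℕ} (hi : i ≤ n) (z : Sp2 n)
    (h : agree i z.1.1.2 z.2) :
    |((dsh c j z : ℤ) : ℝ)| ≤ 3 ^ (n - j + (n - i)) := by
  have h1 := rem_nonneg c j z
  have h2 := rem_lt c j z
  have h3 : |E z.2 - E z.1.1.2| ≤ 3 ^ (n - i) := by
    have := abs_E_sub_le hi h
    linarith
  have h4 : |dsh c j z| ≤ 3 ^ (n - j + (n - i)) := by
    unfold dsh
    rw [abs_mul, abs_of_nonneg h1, pow_add]
    exact mul_le_mul h2 h3 (abs_nonneg _) (by positivity)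
  have h5 : ((|dsh c j z| : ℤ) : ℝ) ≤ ((3 ^ (n - j + (n - i)) : ℤ) : ℝ) := by exact_mod_cast h4
  push_cast at h5
  exact h5

theorem esh_eq (c : Cfg n) (A j : ℕ) (z : Sp2 n) : esh c A j z = dsh c (j + A) z := by
  simp only [esh, dsh]
  rw [Nat.sub_sub]

theorem agree_of_pos (c : Cfg n) {i : ℕ} {z : Sp2 n} (h : 0 < mu2 c i z) :
    agree i z.1.1.2 z.2 := ((mu2_pos_iff c i z).1 h).2.2

/-- the probability that the cell changes -/
theorem cell_change (c : Cfg n) {h A k j i : ℕ}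
    (hk : A ≤ k) (hkn : k + A ≤ n) (hj : j + A ≤ n) (hi : i < n) (hij : i + j = k + 2 * h) :
    ex (mu2 c i) (fun z => ind (cell n (k - A) (uu c (psi c j z).1) ≠ cell n (k - A) (uu c z.1)))
      ≤ 1 / 3 ^ (2 * h + A) := by
  have key : ∀ (xi : Fin (3 ^ n)) (w w' : Word n),
      ∑ τ : ZMod (3 ^ (2 * n)), mu2 c i (((xi, w), τ), w') *
        ind (cell n (k - A) (uu c (psi c j (((xi, w), τ), w')).1)
          ≠ cell n (k - A) (uu c ((xi, w), τ)))
      ≤ 1 / 3 ^ (2 * h + A) * ∑ τ : ZMod (3 ^ (2 * n)), mu2 c i (((xi, w), τ), w') := by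
    intro xi w w'
    have hconst : ∀ τ : ZMod (3 ^ (2 * n)),
        mu2 c i (((xi, w), τ), w') = mu2 c i (((xi, w), 0), w') := fun τ => rfl
    have hd : ∀ τ : ZMod (3 ^ (2 * n)),
        dsh c j (((xi, w), τ), w') = dsh c j (((xi, w), 0), w') := fun τ => rfl
    have hnn : 0 ≤ mu2 c i (((xi, w), 0), w') := (isProb_mu2 c i).1 _
    have hcard : (Fintype.card (ZMod (3 ^ (2 * n))) : ℝ) = 3 ^ (2 * n) := by
      rw [ZMod.card]; push_cast; ring
    simp only [hconst]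
    rw [← Finset.mul_sum, Finset.sum_const, Finset.card_univ, nsmul_eq_mul, hcard]
    rcases hnn.eq_or_lt with h0 | hpos
    · rw [← h0]; simp
    have hag := agree_of_pos c hpos
    have hb := abs_dsh_le c (i := i) (j := j) hi.le _ hag
    set d := dsh c j (((xi, w), (0 : ZMod (3 ^ (2 * n)))), w') with hdd
    have hsum : ∑ τ : ZMod (3 ^ (2 * n)),
        ind (cell n (k - A) (uu c (psi c j (((xi, w), τ), w')).1)
          ≠ cell n (k - A) (uu c ((xi, w), τ))) =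
        ∑ v : ZMod (3 ^ (2 * n)), ind (cell n (k - A) (v + (d : ZMod (3 ^ (2 * n))))
          ≠ cell n (k - A) v) := by
      rw [← Equiv.sum_comp (Equiv.addLeft (((yi c (xi, w) : ℤ) : ZMod (3 ^ (2 * n)))))
        (fun v => ind (cell n (k - A) (v + (d : ZMod (3 ^ (2 * n)))) ≠ cell n (k - A) v))]
      refine Finset.sum_congr rfl fun τ _ => ?_
      rw [u_psi, hd τ]
      rfl
    rw [hsum]
    have hc := cell_shift_card (n := n) (k := k - A) (by omega) d
    have hexp : (3 : ℝ) ^ (n - j + (n - i)) * 3 ^ (k - A) = 1 / 3 ^ (2 * h + A) * 3 ^ (2 * n) := by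
      rw [div_mul_eq_mul_div, one_mul, eq_div_iff (by positivity), ← pow_add, ← pow_add]
      congr 1
      omega
    calc mu2 c i (((xi, w), 0), w') * ∑ v : ZMod (3 ^ (2 * n)),
          ind (cell n (k - A) (v + (d : ZMod (3 ^ (2 * n)))) ≠ cell n (k - A) v)
        ≤ mu2 c i (((xi, w), 0), w') * (1 / 3 ^ (2 * h + A) * 3 ^ (2 * n)) := by
          refine mul_le_mul_of_nonneg_left ?_ hnn
          refine hc.trans ?_
          rw [← hexp]
          exact mul_le_mul_of_nonneg_right hb (by positivity)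
      _ = 1 / 3 ^ (2 * h + A) * (3 ^ (2 * n) * mu2 c i (((xi, w), 0), w')) := by ring
  have hsplit : ∀ f : Sp2 n → ℝ, ∑ z : Sp2 n, f z =
      ∑ xi : Fin (3 ^ n), ∑ w : Word n, ∑ w' : Word n, ∑ τ : ZMod (3 ^ (2 * n)),
        f (((xi, w), τ), w') := by
    intro f
    rw [Fintype.sum_prod_type, Fintype.sum_prod_type, Fintype.sum_prod_type]
    refine Finset.sum_congr rfl fun xi _ => Finset.sum_congr rfl fun w _ => ?_
    rw [Finset.sum_comm]
  have hone : ∑ z : Sp2 n, mu2 c i z = 1 := (isProb_mu2 c i).2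
  have htot : ex (mu2 c i)
      (fun z => ind (cell n (k - A) (uu c (psi c j z).1) ≠ cell n (k - A) (uu c z.1)))
      ≤ 1 / 3 ^ (2 * h + A) * ∑ z : Sp2 n, mu2 c i z := by
    unfold ex
    rw [hsplit, hsplit, Finset.mul_sum]
    refine Finset.sum_le_sum fun xi _ => ?_
    rw [Finset.mul_sum]
    refine Finset.sum_le_sum fun w _ => ?_
    rw [Finset.mul_sum]
    refine Finset.sum_le_sum fun w' _ => ?_
    exact key xi w w'
  rw [hone, mul_one] at htot
  exact htot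

theorem tv_congr {Ω : Type} [Fintype Ω] {α β γ δ ζ : Type} {μ : Ω → ℝ} {X : Ω → α} {X' : Ω → γ}
    {Y : Ω → β} {Y' : Ω → δ} (Z : Ω → ζ) (hX : ∀ ω ω', X ω = X ω' ↔ X' ω = X' ω')
    (hY : ∀ ω ω', Y ω = Y ω' ↔ Y' ω = Y' ω') : tv μ X Y Z = tv μ X' Y' Z := by
  funext ω
  unfold tv
  refine Finset.sum_congr rfl fun z _ => ?_
  rw [ce_congr hX, ce_congr hY]

end EX57

open EX57 in
theorem exchange {n : ℕ} (c : Cfg n) {h A k j i : ℕ} (hh : 2 ≤ h) (hA : 4 * h ≤ A)
    (hk : A ≤ k) (hkn : k + A ≤ n) (hj : j + A ≤ n) (hi : i < n) (hij : i + j = k + 2 * h) :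
    ∃ B : Sp2 n → ℝ, (∀ z, 0 ≤ B z) ∧
      ex (mu2 c i) B ≤ 2 * ex (mu2 c i) (tv (mu2 c i) (fun z => obs c (k - A) j z.1)
            (fun z => (obs c (k - A) (j + A) z.1, z.2)) (fun z => cell n (k + A) (uu c z.1)))
          + 9 * 3 ^ h / 3 ^ A ∧
      ∀ z z' : Sp2 n, 0 < mu2 c i z → 0 < mu2 c i z' →
        obs c (k - A) j z.1 = obs c (k - A) j z'.1 → z.2 = z'.2 →
        ∀ g : ZMod (3 ^ (2 * n)) → ℝ, Lip ((3 : ℝ) ^ h / 3 ^ (2 * n - k)) g →
        |ce (mu c) (obs c (k - A) j) (fun y => g (uu c y + (shf c A j z : ZMod (3 ^ (2 * n))))) z.1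
          - ce (mu c) (obs c (k - A) j)
              (fun y => g (uu c y + (shf c A j z' : ZMod (3 ^ (2 * n))))) z.1|
          ≤ B z + B z' := by
  have hbdiv : ∀ x y : Sp n, bR c (j + A) x = bR c (j + A) y → bR c j x = bR c j y := by
    intro x y hxy
    rw [bR_div c (Nat.le_add_right j A) hj x, bR_div c (Nat.le_add_right j A) hj y, hxy]
  obtain ⟨B, hB0, hBex, hB⟩ := shift_lemma (M := 3 ^ (2 * n)) (μ := mu2 c i) (isProb_mu2 c i)
    (psi c j) (psi_psi c j) (mu2_psi c i j) (fun z => uu c z.1)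
    (fun z => (z.1.2, z.1.1.2, bR c j z.1))
    (fun z => (z.1.2, z.1.1.2, z.2, bR c (j + A) z.1))
    (by
      intro z z' hz
      simp only [Prod.mk.injEq] at hz ⊢
      exact ⟨hz.1, hz.2.1, hbdiv _ _ hz.2.2.2⟩)
    (by
      intro z z' hz
      simp only [Prod.mk.injEq] at hz ⊢
      obtain ⟨h1, h2, h3, h4⟩ := hz
      have h5 := hbdiv _ _ h4
      refine ⟨?_, h3, h2, h4⟩
      simp only [psi]
      rw [h1, h2, h3, h5])
    (cell n (k - A)) (cell n (k + A))
    (by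
      intro v v' hv
      rw [cell_div (show k - A ≤ k + A by omega) (by omega) v,
        cell_div (show k - A ≤ k + A by omega) (by omega) v', hv])
    (3 ^ (2 * n - (k + A)))
    (fun v v' hv => cell_diam (by omega) v v' hv)
    (shf c A j) (esh c A j)
    (by
      intro z z' hz
      simp only [Prod.mk.injEq] at hz
      obtain ⟨h1, h2, h3, h4⟩ := hz
      have h5 := hbdiv _ _ h4
      simp only [shf]
      rw [h2, h3, h4, h5])
    (δ := 3 ^ (2 * n - k - 2 * h - A)) (Λ := (3 : ℝ) ^ h / 3 ^ (2 * n - k)) (by positivity)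
    (by
      intro z _
      rw [u_psi, dsh_eq c A j z]
      push_cast
      ring)
    (by
      intro z hz
      rw [esh_eq]
      refine (abs_dsh_le c (i := i) (j := j + A) hi.le z (agree_of_pos c hz)).trans (le_of_eq ?_)
      congr 1
      omega)
  refine ⟨B, hB0, ?_, ?_⟩
  · have htv : tv (mu2 c i)
        (fun y => ((fun z : Sp2 n => (z.1.2, z.1.1.2, bR c j z.1)) y,
          cell n (k - A) ((fun z : Sp2 n => uu c z.1) y)))
        (fun y => ((fun z : Sp2 n => (z.1.2, z.1.1.2, z.2, bR c (j + A) z.1)) y,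
          cell n (k - A) ((fun z : Sp2 n => uu c z.1) y)))
        (fun y => cell n (k + A) ((fun z : Sp2 n => uu c z.1) y))
        = tv (mu2 c i) (fun z => obs c (k - A) j z.1)
            (fun z => (obs c (k - A) (j + A) z.1, z.2)) (fun z => cell n (k + A) (uu c z.1)) := by
      refine tv_congr _ ?_ ?_
      · intro z z'
        simp only [obs, Prod.mk.injEq]
        tauto
      · intro z z'
        simp only [obs, Prod.mk.injEq]
        tauto
    rw [htv] at hBex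
    have hcc := cell_change c hk hkn hj hi hij
    refine hBex.trans ?_
    have e1 : 4 * ((3 : ℝ) ^ h / 3 ^ (2 * n - k) * 3 ^ (2 * n - (k + A))) = 4 * 3 ^ h / 3 ^ A := by
      have : (3 : ℝ) ^ (2 * n - k) = 3 ^ (2 * n - (k + A)) * 3 ^ A := by
        rw [← pow_add]; congr 1; omega
      rw [this]
      field_simp
    have e2 : (3 : ℝ) ^ h / 3 ^ (2 * n - k) * 3 ^ (2 * n - k - 2 * h - A) ≤ 1 / 3 ^ A := by
      have : (3 : ℝ) ^ (2 * n - k) = 3 ^ (2 * n - k - 2 * h - A) * 3 ^ A * (3 ^ h * 3 ^ h) := by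
        rw [← pow_add, ← pow_add, ← pow_add]; congr 1; omega
      rw [this, div_mul_eq_mul_div, div_le_div_iff₀ (by positivity) (by positivity)]
      have h1 : (1 : ℝ) ≤ 3 ^ h := one_le_pow₀ (by norm_num)
      have h2 : (0 : ℝ) < 3 ^ h * 3 ^ (2 * n - k - 2 * h - A) * 3 ^ A := by positivity
      nlinarith
    have e3 : 6 * (1 / (3 : ℝ) ^ (2 * h + A)) ≤ 1 / 3 ^ A := by
      rw [pow_add, ← div_div, mul_div_assoc', div_le_div_iff_of_pos_right (by positivity)]
      have h1 : (3 : ℝ) ^ 4 ≤ 3 ^ (2 * h) := pow_le_pow_right₀ (by norm_num) (by omega)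
      rw [← mul_div_assoc, div_le_iff₀ (by positivity)]
      nlinarith
    have e4 : 4 * (3 : ℝ) ^ h / 3 ^ A + 1 / 3 ^ A + 1 / 3 ^ A ≤ 9 * 3 ^ h / 3 ^ A := by
      rw [← add_div, ← add_div, div_le_div_iff_of_pos_right (by positivity)]
      have h1 : (1 : ℝ) ≤ 3 ^ h := one_le_pow₀ (by norm_num)
      linarith
    have e5 : 6 * ex (mu2 c i) (fun y => ind (cell n (k - A) ((fun z : Sp2 n => uu c z.1)
        (psi c j y)) ≠ cell n (k - A) ((fun z : Sp2 n => uu c z.1) y)))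
        ≤ 6 * (1 / (3 : ℝ) ^ (2 * h + A)) := by
      refine mul_le_mul_of_nonneg_left hcc (by norm_num)
    linarith
  · intro z z' hz hz' hobs hw g hg
    have h1 := hB z hz g hg
    have h2 := hB z' hz' g hg
    have hobs' := hobs
    simp only [obs, Prod.mk.injEq] at hobs'
    obtain ⟨o1, o2, o3, o4⟩ := hobs'
    have hW : (((psi c j z').1.2, (psi c j z').1.1.2, bR c j (psi c j z').1) :
        ZMod (3 ^ (2 * n)) × Word n × ℕ)
        = ((psi c j z).1.2, (psi c j z).1.1.2, bR c j (psi c j z).1) := by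
      simp only [psi, Prod.mk.injEq]
      refine ⟨?_, hw.symm, ?_⟩
      · rw [o1, o2, o4, hw]
      · exact o4.symm
    have h2' : |atomMean (mu2 c i) (fun z : Sp2 n => (z.1.2, z.1.1.2, bR c j z.1))
          (fun y => cell n (k - A) (uu c y.1)) (fun y => g (uu c y.1))
          ((psi c j z).1.2, (psi c j z).1.1.2, bR c j (psi c j z).1)
          (cell n (k - A) (uu c z.1)) -
        ce (mu2 c i) (fun y => ((y.1.2, y.1.1.2, bR c j y.1), cell n (k - A) (uu c y.1)))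
          (fun y => g (uu c y.1 + (shf c A j z' : ZMod (3 ^ (2 * n))))) z'| ≤ B z' := by
      rw [← hW, o3]
      exact h2
    have h1' : |atomMean (mu2 c i) (fun z : Sp2 n => (z.1.2, z.1.1.2, bR c j z.1))
          (fun y => cell n (k - A) (uu c y.1)) (fun y => g (uu c y.1))
          ((psi c j z).1.2, (psi c j z).1.1.2, bR c j (psi c j z).1)
          (cell n (k - A) (uu c z.1)) -
        ce (mu2 c i) (fun y => ((y.1.2, y.1.1.2, bR c j y.1), cell n (k - A) (uu c y.1)))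
          (fun y => g (uu c y.1 + (shf c A j z : ZMod (3 ^ (2 * n))))) z| ≤ B z := h1
    have hce : ∀ (m : ℤ) (y0 : Sp2 n), ce (mu2 c i)
        (fun y => ((y.1.2, y.1.1.2, bR c j y.1), cell n (k - A) (uu c y.1)))
        (fun y => g (uu c y.1 + (m : ZMod (3 ^ (2 * n))))) y0
        = ce (mu c) (obs c (k - A) j) (fun y => g (uu c y + (m : ZMod (3 ^ (2 * n))))) y0.1 := by
      intro m y0
      rw [← ce_mu2_fst c i (obs c (k - A) j)
        (fun y => g (uu c y + (m : ZMod (3 ^ (2 * n))))) y0]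
      refine congrFun (ce_congr ?_ _) y0
      intro z z'
      simp only [obs, Prod.mk.injEq]
      tauto
    rw [hce] at h1' h2'
    rw [abs_sub_comm] at h1'
    rw [ce_eq hobs.symm] at h2'
    exact (abs_sub_le _ _ _).trans (add_le_add h1' h2')

end Pool.Agent.helper32.Cant
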